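import Pool.Agent.Work.MP_ff0f6a_lc.PS.Red

open Pool.Agent.Chomp Pool.Agent.Lib.Cx

/-- On sets of cells that contain the top cell of the board (the first player wins by strategy
stealing), finding a winning first move is `PSPACE`-hard under logarithmic-space reductions. -/
theorem Pool.Agent.Results.MP_ff0f6a_lc.FirstMovePSPACE.result (L : List Bool → Bool)
    (hL : L ∈ PSPACE) :
    ∃ f, LogspaceComputable f ∧ ∀ x, ∃ m n S, f x = N487b59b3.bitEncode (code m n S) ∧
      S ⊆ board m n ∧ (m, n) ∈ S ∧ Out true S ∧
      ∀ c ∈ S, Out false (bite S c) → (L x = true ↔ c ≠ (m, n)) :=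
  PS.hard hL
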