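import Pool.Agent.Work.MP_ff0f6a_lc.GR.Main

open Pool.Agent.Chomp.SC Pool.Agent.Chomp.GR Pool.Agent.Lib.Cx

/-- Deciding the winner of Chomp on a graph is `PSPACE`-hard under logarithmic-space reductions,
already for graphs that become bipartite when one edge is removed. -/
theorem Pool.Agent.Results.MP_ff0f6a_lc.GraphPSPACE.result (L : List Bool → Bool)
    (hL : L ∈ PSPACE) :
    ∃ f, LogspaceComputable f ∧ ∀ x, ∃ n S, f x = N487b59b3.bitEncode (matrix n S) ∧ Down n S ∧
      (∀ σ ∈ S, σ.card ≤ 2) ∧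
      (∃ (col : ℕ → Bool) (e : Finset ℕ), ∀ i j, i ≠ j → ({i, j} : Finset ℕ) ∈ S →
        ({i, j} : Finset ℕ) ≠ e → col i ≠ col j) ∧
      (L x = true ↔ Res true S) :=
  t_hard p_map p_not_both t_pairs t_Gok t_vs t_mok c_zero c_one t_tsok (t_ts t_tsmat) p_enc hL
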