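import Pool.Agent.Work.MP_ff0f6a_lc.HookAlg
import Pool.Agent.Work.MP_ff0f6a_lc.HookCount

open Pool.Agent.Chomp

/-- One polynomial-time algorithm opens at the cell `(2, 2)` and wins on linearly many non-square
boards with comparable sides. -/
theorem Pool.Agent.Results.MP_ff0f6a_lc.HookFamily.result :
    ∃ A : List Bool × List Bool → List Bool, N68a2faeb.IsPolyTime A ∧
      ∀ N : ℕ, N ≤ 10 ^ 9 * (Set.ncard {p : ℕ × ℕ | p.1 ≤ N ∧ p.2 ≤ N ∧ N ≤ 10 ^ 9 * p.1 ∧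
        N ≤ 10 ^ 9 * p.2 ∧ p.1 ≠ p.2 ∧ cell (A (code p.1 p.2 (board p.1 p.2))) = (2, 2) ∧
          Wins (fun S => cell (A (code p.1 p.2 S))) (board p.1 p.2)} + 1) :=
  ⟨alg, alg_poly, many_boards alg_wins_board⟩
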