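import Pool.Agent.Work.MP_ff0f6a_lc.Low
import Pool.Agent.Work.MP_ff0f6a_lc.Bridge

/-!
Chomp on three rows: the upper density of the boards whose winning first move lies in the last row
is close to `√2 - 1`, up to the gap between the upper and the lower density.
-/

namespace Pool.Agent.Results.MP_ff0f6a_lc.ThreeRowConstant

open Pool.Agent.Chomp Filter

theorem result (a : ℕ → ℝ)
    (ha : ∀ N, a N = ({n | n < N ∧ ∃ j, WinMove 2 n (2, j)}.ncard : ℝ) / N) :
    (limsup a atTop - (√2 - 1)) ^ 2 ≤ 12000 * (limsup a atTop - liminf a atTop) := by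
  obtain ⟨f, H, hf⟩ := exists_count
  simp only [hf] at ha
  have t1 : ∀ y, (th f y : ℝ) ≤ y := fun y => by
    exact_mod_cast (by have := H.th_add_de y; omega)
  have a0 : ∀ N, 0 ≤ a N := fun N => by rw [ha]; positivity
  have a1 : ∀ N, a N ≤ 1 := fun N => by rw [ha]; exact div_le_one_of_le₀ (t1 N) (by positivity)
  have b0 : IsBoundedUnder (· ≥ ·) atTop a := isBoundedUnder_of ⟨0, a0⟩
  have b1 : IsBoundedUnder (· ≤ ·) atTop a := isBoundedUnder_of ⟨1, a1⟩
  have l0 : 0 ≤ liminf a atTop :=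
    le_liminf_of_le b1.isCoboundedUnder_ge (Eventually.of_forall a0)
  have u1 : limsup a atTop ≤ 1 :=
    limsup_le_of_le b0.isCoboundedUnder_le (Eventually.of_forall a1)
  have lu : liminf a atTop ≤ limsup a atTop := liminf_le_limsup b1 b0
  have hu := fun ε (h : 0 < ε) => eventually_lt_of_limsup_lt (lt_add_of_pos_right _ h) b1
  have hl := fun ε (h : 0 < ε) => eventually_lt_of_lt_liminf (sub_lt_self _ h) b0
  generalize limsup a atTop = u at *
  generalize liminf a atTop = l at *
  have s0 := Real.sq_sqrt (show (0 : ℝ) ≤ 2 by norm_num)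
  have s1 : 141 / 100 ≤ √2 := Real.le_sqrt_of_sq_le (by norm_num)
  have s2 : √2 ≤ 142 / 100 := Real.sqrt_le_iff.2 ⟨by norm_num, by norm_num⟩
  generalize √2 = r at s0 s1 s2 ⊢
  refine le_of_forall_pos_le_add fun ε hε => ?_
  obtain ⟨δ, hδ⟩ : ∃ δ, δ = (u - l) / 2 + ε / 24000 := ⟨_, rfl⟩
  obtain ⟨θ, hθ⟩ : ∃ θ, θ = (u + l) / 2 := ⟨_, rfl⟩
  have d0 : 0 < δ := by linarith
  suffices (u - (r - 1)) ^ 2 ≤ 24000 * δ by linarith
  rcases le_total (1 / 64800) δ with d1 | d1
  · have : (u - (r - 1)) ^ 2 ≤ (59 / 100) ^ 2 := sq_le_sq' (by linarith) (by linarith)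
    linarith
  have hD : Den f θ δ := by
    obtain ⟨N, hN⟩ := eventually_atTop.1
      ((hu (ε / 24000) (by positivity)).and (hl (ε / 24000) (by positivity)))
    refine ⟨N + 1, by positivity, fun y => ?_⟩
    have k0 := Nat.cast_nonneg (α := ℝ) (th f y)
    have k1 := Nat.cast_nonneg (α := ℝ) y
    have k2 := Nat.cast_nonneg (α := ℝ) N
    rcases le_or_gt (N + 1) y with k | k
    · have k5 := hN y (by omega)
      have k6 : (0 : ℝ) < y := by exact_mod_cast (by omega)
      rw [ha, div_lt_iff₀ k6, lt_div_iff₀ k6] at k5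
      rw [show θ - δ = l - ε / 24000 by linarith, show θ + δ = u + ε / 24000 by linarith]
      constructor <;> linarith [k5.1, k5.2]
    · have k5 : (y : ℝ) ≤ N := by exact_mod_cast (by omega)
      have k6 := t1 y
      have k7 := mul_le_mul_of_nonneg_right (show θ - δ ≤ 1 by linarith) k1
      have k8 := mul_nonneg (show 0 ≤ θ + δ by linarith) k1
      constructor <;> linarith
  have e0 := Real.sqrt_pos.2 (show 0 < 162 * δ by linarith)
  have e1 := Real.sq_sqrt (show 0 ≤ 162 * δ by linarith)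
  generalize √(162 * δ) = η at e0 e1
  have e2 : η ≤ 1 / 20 := abs_le_of_sq_le_sq' (by linarith) (by norm_num) |>.2
  have k1 := abs_le.1 (H.den_eq hD d0 e0 e2 e1.ge)
  have k2 := H.third' hD (by linarith)
  have k0 : θ ^ 2 + 2 * θ - 1 = (θ - (r - 1)) * (θ + 1 + r) := by linear_combination s0
  have k3 : θ - (r - 1) ≤ 117 / 10 * η := le_of_not_gt fun k => by
    have := mul_le_mul k.le (show 274 / 100 ≤ θ + 1 + r by linarith) (by norm_num) (by linarith)
    linarith
  have k4 : (r - 1) - θ ≤ 117 / 10 * η := le_of_not_gt fun k => by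
    have := mul_le_mul k.le (show 274 / 100 ≤ θ + 1 + r by linarith) (by norm_num) (by linarith)
    linarith
  have k5 := mul_le_mul_of_nonneg_left e2 e0.le
  have k6 : (u - (r - 1)) ^ 2 ≤ (12 * η) ^ 2 := sq_le_sq' (by linarith) (by linarith)
  linarith

end Pool.Agent.Results.MP_ff0f6a_lc.ThreeRowConstant
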